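import Pool.Agent.H37.UM.Stmts

/-!
# Project UM, module APB: a crude coefficient bound for `P n`
-/

set_option autoImplicit false

namespace Pool.Agent.H37.UM

open PowerSeries Finset

namespace APBx

/-- coefficientwise majorant -/
def Mj (f F : ℤ⟦X⟧) : Prop := ∀ k, |coeff k f| ≤ coeff k F

theorem Mj.nonneg {f F : ℤ⟦X⟧} (h : Mj f F) (k : ℕ) : 0 ≤ coeff k F :=
  (abs_nonneg _).trans (h k)

theorem Mj.mul {f F g G : ℤ⟦X⟧} (hf : Mj f F) (hg : Mj g G) : Mj (f * g) (F * G) := by
  intro k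
  rw [coeff_mul, coeff_mul]
  refine (Finset.abs_sum_le_sum_abs _ _).trans (Finset.sum_le_sum fun x _ => ?_)
  rw [abs_mul]
  exact mul_le_mul (hf _) (hg _) (abs_nonneg _) (hf.nonneg _)

theorem Mj.one : Mj 1 1 := by
  intro k
  rw [coeff_one]; split_ifs <;> simp

theorem Mj.pow {f F : ℤ⟦X⟧} (hf : Mj f F) (n : ℕ) : Mj (f ^ n) (F ^ n) := by
  induction n with
  | zero => rw [pow_zero, pow_zero]; exact Mj.one
  | succ n ih => rw [pow_succ, pow_succ]; exact ih.mul hf

theorem Mj.prod {ι : Type*} (s : Finset ι) {f F : ι → ℤ⟦X⟧} (h : ∀ i ∈ s, Mj (f i) (F i)) :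
    Mj (∏ i ∈ s, f i) (∏ i ∈ s, F i) := by
  classical
  induction s using Finset.induction_on with
  | empty => simpa using Mj.one
  | insert a s ha ih =>
    rw [Finset.prod_insert ha, Finset.prod_insert ha]
    exact (h a (Finset.mem_insert_self _ _)).mul
      (ih fun i hi => h i (Finset.mem_insert_of_mem hi))

/-- all coefficients one -/
noncomputable def E : ℤ⟦X⟧ := PowerSeries.mk 1

theorem Mj.one_E : Mj 1 E := by
  intro k
  rw [coeff_one, E, coeff_mk]; split_ifs <;> simp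

theorem Mj_w (i : ℕ) : Mj (w i) (1 + X ^ i) := by
  intro k
  unfold w
  rw [neg_pow, show ((-1 : ℤ⟦X⟧) ^ i * X ^ i) = PowerSeries.C ((-1) ^ i) * X ^ i by simp,
    map_add, map_add, coeff_C_mul, coeff_X_pow]
  refine (abs_add_le _ _).trans ?_
  rw [abs_mul, abs_neg_one_pow, one_mul]
  refine add_le_add (Mj.one k) ?_
  split_ifs <;> simp

theorem w_mul_g {i : ℕ} (hi : 1 ≤ i) : w i * g i = 1 := by
  unfold g
  refine PowerSeries.mul_invOfUnit (w i) 1 ?_
  have : i ≠ 0 := by omega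
  simp [w, this]

theorem g_le {i : ℕ} (hi : 1 ≤ i) : ∀ k, |coeff k (g i)| ≤ 1 := by
  have h1 : g i = 1 - PowerSeries.C ((-1) ^ i) * (X ^ i * g i) := by
    have h2 := w_mul_g hi
    unfold w at h2
    rw [neg_pow, add_mul, one_mul] at h2
    have h3 : ((-1 : ℤ⟦X⟧) ^ i * X ^ i) * g i = PowerSeries.C ((-1) ^ i) * (X ^ i * g i) := by
      simp [mul_assoc]
    rw [h3] at h2
    exact eq_sub_of_add_eq h2
  intro k
  induction k using Nat.strong_induction_on with
  | _ k ih =>
    rw [h1, map_sub, coeff_C_mul, coeff_X_pow_mul', coeff_one]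
    by_cases h2 : i ≤ k
    · rw [if_pos h2, if_neg (by omega), zero_sub, abs_neg, abs_mul, abs_neg_one_pow, one_mul]
      exact ih (k - i) (by omega)
    · rw [if_neg h2, mul_zero, sub_zero]
      split_ifs <;> simp

theorem Mj_g {i : ℕ} (hi : 1 ≤ i) : Mj (g i) E := by
  intro k
  rw [E, coeff_mk]
  exact g_le hi k

theorem Mj_parts (m : Multiset ℕ) (hm : ∀ i ∈ m, 1 ≤ i) (n : ℕ) (hn : m.card ≤ n) :
    Mj (m.map g).prod (E ^ n) := by
  induction m using Multiset.induction_on generalizing n with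
  | empty =>
    simp only [Multiset.map_zero, Multiset.prod_zero]
    have := Mj.one_E.pow n
    rwa [one_pow] at this
  | cons a m ih =>
    rw [Multiset.card_cons] at hn
    obtain ⟨d, rfl⟩ : ∃ d, n = d + 1 := ⟨n - 1, by omega⟩
    rw [Multiset.map_cons, Multiset.prod_cons, pow_succ']
    exact (Mj_g (hm a (Multiset.mem_cons_self _ _))).mul
      (ih (fun i hi => hm i (Multiset.mem_cons_of_mem hi)) d (by omega))

theorem card_parts_le {n : ℕ} (p : n.Partition) : p.parts.card ≤ n := by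
  have h1 := Multiset.card_nsmul_le_sum (s := p.parts) (a := 1) (fun x hx => p.parts_pos hx)
  rw [p.parts_sum] at h1
  simpa using h1

theorem h_le (n k : ℕ) : |coeff k (h n)| ≤ Fintype.card n.Partition * coeff k (E ^ n) := by
  unfold h
  rw [map_sum]
  refine (Finset.abs_sum_le_sum_abs _ _).trans ?_
  calc ∑ p : n.Partition, |coeff k (p.parts.map g).prod| ≤ ∑ _p : n.Partition, coeff k (E ^ n) :=
        Finset.sum_le_sum fun p _ =>
          Mj_parts p.parts (fun i hi => p.parts_pos hi) n (card_parts_le p) k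
    _ = _ := by rw [Finset.sum_const, Finset.card_univ, nsmul_eq_mul]

theorem coeff_E_pow {n : ℕ} (hn : 1 ≤ n) (k : ℕ) :
    coeff k (E ^ n) = ((n + k - 1).choose k : ℕ) := by
  obtain ⟨d, rfl⟩ : ∃ d, n = d + 1 := ⟨n - 1, by omega⟩
  unfold E
  rw [PowerSeries.mk_one_pow_eq_mk_choose_add, coeff_mk, show d + 1 + k - 1 = d + k by omega,
    Nat.choose_symm_add]

/-- partial sums of coefficients -/
noncomputable def A (k : ℕ) (f : ℤ⟦X⟧) : ℤ := ∑ j ∈ range (k + 1), coeff j f

theorem A_mono {f : ℤ⟦X⟧} (hf : ∀ j, 0 ≤ coeff j f) {k l : ℕ} (h : k ≤ l) : A k f ≤ A l f :=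
  Finset.sum_le_sum_of_subset_of_nonneg (Finset.range_mono (by omega)) fun i _ _ => hf i

theorem A_mul {f : ℤ⟦X⟧} (hf : ∀ j, 0 ≤ coeff j f) (i k : ℕ) :
    A k ((1 + X ^ i) * f) ≤ (if i ≤ k then 2 else 1) * A k f := by
  have h1 : A k ((1 + X ^ i) * f) = A k f + ∑ j ∈ range (k + 1), coeff j (X ^ i * f) := by
    unfold A
    rw [← Finset.sum_add_distrib]
    refine Finset.sum_congr rfl fun j _ => ?_
    rw [add_mul, one_mul, map_add]
  have h2 : ∑ j ∈ range (k + 1), coeff j (X ^ i * f) ≤ if i ≤ k then A k f else 0 := by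
    by_cases hik : i ≤ k
    · rw [if_pos hik]
      have h3 : ∑ j ∈ range (k + 1), coeff j (X ^ i * f) =
          ∑ j ∈ range (k - i + 1), coeff j f := by
        obtain ⟨d, rfl⟩ : ∃ d, k = i + d := ⟨k - i, by omega⟩
        rw [show i + d + 1 = i + (d + 1) by ring, Finset.sum_range_add]
        have h4 : ∑ j ∈ range i, coeff j (X ^ i * f) = 0 := by
          refine Finset.sum_eq_zero fun j hj => ?_
          have := Finset.mem_range.1 hj
          rw [coeff_X_pow_mul', if_neg (by omega)]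
        rw [h4, zero_add, Nat.add_sub_cancel_left]
        refine Finset.sum_congr rfl fun j _ => ?_
        rw [coeff_X_pow_mul', if_pos (by omega), Nat.add_sub_cancel_left]
      rw [h3]
      exact A_mono hf (Nat.sub_le _ _)
    · rw [if_neg hik]
      refine le_of_eq (Finset.sum_eq_zero fun j hj => ?_)
      have := Finset.mem_range.1 hj
      rw [coeff_X_pow_mul', if_neg (by omega)]
  rw [h1]
  split_ifs with hik
  · rw [if_pos hik] at h2; linarith
  · rw [if_neg hik] at h2; linarith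

theorem nn_mul {f : ℤ⟦X⟧} (hf : ∀ j, 0 ≤ coeff j f) (i : ℕ) :
    ∀ j, 0 ≤ coeff j ((1 + X ^ i) * f) := by
  intro j
  rw [add_mul, one_mul, map_add, coeff_X_pow_mul']
  have := hf j
  split_ifs
  · have := hf (j - i); linarith
  · linarith

theorem A_pow_mul {f : ℤ⟦X⟧} (hf : ∀ j, 0 ≤ coeff j f) (i k c : ℕ) :
    (∀ j, 0 ≤ coeff j ((1 + X ^ i) ^ c * f)) ∧
    A k ((1 + X ^ i) ^ c * f) ≤ (if i ≤ k then 2 ^ c else 1) * A k f := by
  induction c with
  | zero => simp [hf]
  | succ c ih =>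
    have h1 : (1 + X ^ i) ^ (c + 1) * f = (1 + X ^ i) * ((1 + X ^ i) ^ c * f) := by ring
    rw [h1]
    refine ⟨nn_mul ih.1 i, (A_mul ih.1 i k).trans ?_⟩
    split_ifs with hik
    · have h2 := ih.2
      rw [if_pos hik] at h2
      rw [pow_succ]; linarith
    · have h2 := ih.2
      rw [if_neg hik] at h2
      linarith

theorem A_prod (S : Finset ℕ) (c : ℕ → ℕ) (k : ℕ) :
    (∀ j, 0 ≤ coeff j (∏ i ∈ S, (1 + X ^ i : ℤ⟦X⟧) ^ c i)) ∧
    A k (∏ i ∈ S, (1 + X ^ i : ℤ⟦X⟧) ^ c i) ≤ 2 ^ (∑ i ∈ S.filter (· ≤ k), c i) := by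
  classical
  induction S using Finset.induction_on with
  | empty =>
    refine ⟨fun j => ?_, ?_⟩
    · rw [Finset.prod_empty, coeff_one]; split_ifs <;> norm_num
    · rw [Finset.prod_empty, Finset.filter_empty, Finset.sum_empty, pow_zero]
      unfold A
      rw [Finset.sum_eq_single_of_mem 0 (by simp) (fun b _ hb => by
        rw [coeff_one, if_neg hb])]
      simp
  | insert a S ha ih =>
    rw [Finset.prod_insert ha]
    have h1 := A_pow_mul ih.1 a k (c a)
    refine ⟨h1.1, h1.2.trans ?_⟩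
    have h2 : (0 : ℤ) ≤ 2 ^ (c a) := by positivity
    split_ifs with hak
    · rw [Finset.filter_insert, if_pos hak, Finset.sum_insert (by simp [ha]), pow_add]
      exact mul_le_mul_of_nonneg_left ih.2 h2
    · rw [Finset.filter_insert, if_neg hak, one_mul]
      exact ih.2

end APBx

open APBx in
theorem APB_thm (_h : GENStmt) : APBStmt := by
  intro n k hn
  have h1 : Mj (den n) (∏ i ∈ Icc 1 n, (1 + X ^ i) ^ cc n i) :=
    Mj.prod _ fun i _ => (Mj_w i).pow _
  obtain ⟨h2, h3⟩ := A_prod (Icc 1 n) (cc n) k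
  have h4 : (Icc 1 n).filter (· ≤ k) = Icc 1 (min n k) := by
    ext x; simp only [Finset.mem_filter, Finset.mem_Icc]; omega
  rw [h4] at h3
  have h5 : ∀ j, j ≤ k → coeff j (E ^ n) ≤ coeff k (E ^ n) := by
    intro j hj
    rw [coeff_E_pow hn, coeff_E_pow hn]
    have h6 : (n + j - 1).choose j ≤ (n + k - 1).choose k := by
      obtain ⟨d, rfl⟩ : ∃ d, n = d + 1 := ⟨n - 1, by omega⟩
      rw [show d + 1 + j - 1 = d + j by omega, show d + 1 + k - 1 = d + k by omega,
        ← Nat.choose_symm_add, ← Nat.choose_symm_add]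
      exact Nat.choose_le_choose _ (by omega)
    exact_mod_cast h6
  have h7 : |coeff k (P n)| ≤ A k (∏ i ∈ Icc 1 n, (1 + X ^ i) ^ cc n i) *
      (Fintype.card n.Partition * coeff k (E ^ n)) := by
    unfold P A
    rw [coeff_mul, Finset.sum_mul, Finset.Nat.sum_antidiagonal_eq_sum_range_succ
      (fun i j => coeff i (den n) * coeff j (h n))]
    refine (Finset.abs_sum_le_sum_abs _ _).trans (Finset.sum_le_sum fun i hi => ?_)
    rw [abs_mul]
    refine mul_le_mul (h1 i) ((h_le n (k - i)).trans ?_) (abs_nonneg _) (h2 i)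
    exact mul_le_mul_of_nonneg_left (h5 _ (Nat.sub_le _ _)) (by positivity)
  refine h7.trans ?_
  rw [coeff_E_pow hn]
  push_cast
  rw [mul_assoc]
  exact mul_le_mul_of_nonneg_right h3 (by positivity)

end Pool.Agent.H37.UM
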