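import Pool.Agent.H37.UM.Stmts

/-!
# Project UM: the counting function of the blocks
-/

set_option autoImplicit false

namespace Pool.Agent.H37.UM

open PowerSeries Finset

namespace TBx

/-- the indicator of `i mod 2p < p` -/
def ch (p i : ℕ) : ℤ := if i % (2 * p) < p then 1 else 0

/-- the counting function -/
def s (p n : ℕ) : ℤ := ∑ i ∈ range n, ch p i

theorem s_zero (p : ℕ) : s p 0 = 0 := by simp [s]

theorem s_succ (p n : ℕ) : s p (n + 1) = s p n + ch p n := by
  simp [s, Finset.sum_range_succ]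

theorem ch_nonneg (p i : ℕ) : 0 ≤ ch p i := by unfold ch; split_ifs <;> norm_num

theorem ch_le (p i : ℕ) : ch p i ≤ 1 := by unfold ch; split_ifs <;> norm_num

theorem ch_add (p i c : ℕ) : ch p (i + 2 * p * c) = ch p i := by
  unfold ch; rw [Nat.add_mul_mod_self_left]

theorem ch_one {p i : ℕ} (h : i < p) : ch p i = 1 := by
  unfold ch
  rw [Nat.mod_eq_of_lt (by omega), if_pos h]

theorem ch_zero {p i : ℕ} (h : p ≤ i) (h2 : i < 2 * p) : ch p i = 0 := by
  unfold ch
  rw [Nat.mod_eq_of_lt h2, if_neg (by omega)]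

theorem s_small {p n : ℕ} (h : n ≤ p) : s p n = n := by
  induction n with
  | zero => simp [s_zero]
  | succ n ih => rw [s_succ, ih (by omega), ch_one (by omega)]; push_cast; rfl

theorem s_mid {p n : ℕ} (h : n ≤ p) : s p (p + n) = p := by
  induction n with
  | zero => simpa using s_small (le_refl p)
  | succ n ih =>
    rw [← add_assoc, s_succ, ih (by omega), ch_zero (by omega) (by omega), add_zero]

theorem s_add_one (p n : ℕ) : s p (n + 2 * p) = s p n + p := by
  induction n with
  | zero =>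
    have := s_mid (le_refl p)
    rw [s_zero, zero_add, two_mul, this, zero_add]
  | succ n ih =>
    have h1 : n + 1 + 2 * p = (n + 2 * p) + 1 := by ring
    rw [h1, s_succ, ih, s_succ]
    have := ch_add p n 1
    rw [mul_one] at this
    rw [this]; ring

theorem s_add (p n c : ℕ) : s p (n + 2 * p * c) = s p n + p * c := by
  induction c with
  | zero => simp
  | succ c ih =>
    have h1 : n + 2 * p * (c + 1) = (n + 2 * p * c) + 2 * p := by ring
    rw [h1, s_add_one, ih]; push_cast; ring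

theorem s_mono (p : ℕ) {m n : ℕ} (h : m ≤ n) : s p m ≤ s p n := by
  induction n, h using Nat.le_induction with
  | base => exact le_rfl
  | succ n _ ih => rw [s_succ]; have := ch_nonneg p n; omega

theorem coeff_iv_mul (f : ℤ⟦X⟧) (c k : ℕ) : coeff k (iv c * f) =
    ∑ j ∈ range (k + 1), coeff j f - ∑ j ∈ range (k + 1 - c), coeff j f := by
  induction c with
  | zero => simp [iv]
  | succ c ih =>
    have h1 : iv (c + 1) * f = iv c * f + X ^ c * f := by
      simp only [iv, Finset.sum_range_succ]; ring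
    rw [h1, map_add, ih, coeff_X_pow_mul']
    by_cases hc : c ≤ k
    · rw [if_pos hc]
      have h2 : k + 1 - c = (k - c) + 1 := by omega
      have h3 : k + 1 - (c + 1) = k - c := by omega
      rw [h2, h3, Finset.sum_range_succ _ (k - c)]; ring
    · rw [if_neg hc]
      have h2 : k + 1 - c = 0 := by omega
      have h3 : k + 1 - (c + 1) = 0 := by omega
      rw [h2, h3]; ring

theorem coeff_shift (G : ℤ⟦X⟧) (h : ℕ → ℤ) (h0 : h 0 = 0) (hG : ∀ j, coeff j G = h (j + 1))
    (a k : ℕ) : coeff k (X ^ a * G) = h (k + 1 - a) := by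
  rw [coeff_X_pow_mul']
  split_ifs with hak
  · rw [hG]; congr 1; omega
  · have : k + 1 - a = 0 := by omega
    rw [this, h0]

theorem one_sub_mul_iv (n : ℕ) : (1 - X) * iv n = 1 - (X : ℤ⟦X⟧) ^ n := by
  unfold iv; exact mul_neg_geom_sum X n

/-- sum of the first coefficients of `F M` -/
theorem sum_F (hFF : FFStmt) {M : ℕ} (hM : 1 ≤ M) (n : ℕ) :
    ∑ j ∈ range n, coeff j (F M) = s (op M) (min n (2 * M)) := by
  induction n with
  | zero => simp [s_zero]
  | succ n ih =>
    rw [Finset.sum_range_succ, ih, hFF.1 M hM n]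
    by_cases h : n < 2 * M
    · have h1 : min (n + 1) (2 * M) = min n (2 * M) + 1 := by omega
      have h2 : min n (2 * M) = n := by omega
      rw [h1, s_succ, h2]
      unfold ch
      by_cases h3 : n % (2 * op M) < op M
      · rw [if_pos ⟨h, h3⟩, if_pos h3]
      · rw [if_neg (fun hh => h3 hh.2), if_neg h3]
    · have h1 : min (n + 1) (2 * M) = min n (2 * M) := by omega
      rw [h1, if_neg (fun hh => h hh.1), add_zero]

/-- the coefficients of `[c] F M` -/
def H (p M c n : ℕ) : ℤ := s p (min n (2 * M)) - s p (min (n - c) (2 * M))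

theorem coeff_H (hFF : FFStmt) {M : ℕ} (hM : 1 ≤ M) (c j : ℕ) :
    coeff j (iv c * F M) = H (op M) M c (j + 1) := by
  rw [coeff_iv_mul, sum_F hFF hM, sum_F hFF hM]; rfl

theorem H_zero (p M c : ℕ) : H p M c 0 = 0 := by simp [H, s_zero]

/-- the odd case of `F` -/
theorem F_odd (hOP : OPStmt) (m : ℕ) : F (2 * m + 1) = iv (2 * m + 1) := by
  unfold F
  have h1 := hOP.2.2 m
  have h2 : padicValNat 2 (2 * m + 1) = 0 :=
    padicValNat.eq_zero_of_not_dvd (by omega)
  rw [h1, h2]; simp

theorem F_two_odd (hOP : OPStmt) (m : ℕ) :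
    F (2 * (2 * m + 1)) = iv (2 * m + 1) * (1 + X ^ (2 * (2 * m + 1))) := by
  unfold F
  have h1 : op (2 * (2 * m + 1)) = 2 * m + 1 := by
    rw [hOP.2.1 (2 * m + 1) (by omega), hOP.2.2]
  have h2 : padicValNat 2 (2 * (2 * m + 1)) = 1 := by
    rw [padicValNat.mul (by norm_num) (by omega), padicValNat.self (by norm_num),
      padicValNat.eq_zero_of_not_dvd (n := 2 * m + 1) (by omega)]
  rw [h1, h2]; simp

theorem iv_add (a b : ℕ) : iv (a + b) = iv a + X ^ a * iv b := by
  unfold iv
  rw [Finset.sum_range_add, Finset.mul_sum]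
  congr 1
  refine Finset.sum_congr rfl fun i _ => ?_
  rw [pow_add]

theorem U_three (n : ℕ) : U n (n + 3) = F (n + 1) * F (n + 2) * F (n + 3) := by
  unfold U
  rw [Finset.prod_Ioc_succ_top (by omega), Finset.prod_Ioc_succ_top (by omega),
    Finset.prod_Ioc_succ_top (by omega)]
  simp

theorem dU_three (n : ℕ) : dU n (n + 3) = (2 * (n + 1) - op (n + 1) - 1) +
    (2 * (n + 2) - op (n + 2) - 1) + (2 * (n + 3) - op (n + 3) - 1) := by
  unfold dU
  rw [Finset.sum_Ioc_succ_top (by omega), Finset.sum_Ioc_succ_top (by omega),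
    Finset.sum_Ioc_succ_top (by omega)]
  simp

/-- `M = 4 u`, `u = p c`, `c = 1` or `c` even -/
theorem M_shape (hOP : OPStmt) (v : ℕ) : ∃ c, v + 1 = op (4 * v + 4) * c ∧ 1 ≤ c ∧
    (c = 1 ∨ ∃ d, c = 2 * d) ∧ Odd (op (4 * v + 4)) ∧ 1 ≤ op (4 * v + 4) := by
  have h1 : op (4 * v + 4) = op (v + 1) := by
    have a := hOP.2.1 (v + 1) (by omega)
    have b := hOP.2.1 (2 * (v + 1)) (by omega)
    rw [show 4 * v + 4 = 2 * (2 * (v + 1)) by ring, b, a]
  obtain ⟨ho, h2, -, h3⟩ := hOP.1 (v + 1) (by omega)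
  rw [h1]
  refine ⟨2 ^ padicValNat 2 (v + 1), by rw [mul_comm]; exact h3, Nat.one_le_two_pow, ?_, ho, h2⟩
  cases h : padicValNat 2 (v + 1) with
  | zero => left; rfl
  | succ n => right; exact ⟨2 ^ n, by rw [pow_succ]; ring⟩

end TBx

end Pool.Agent.H37.UM
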