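import Pool.Agent.H37.UM.Stmts

/-!
# Project UM, module DUB: bounds for the degrees `dU`
-/

set_option autoImplicit false

namespace Pool.Agent.H37.UM

open PowerSeries Finset

namespace DUBx

theorem six (hOP : OPStmt) (M : ℕ) : 15 * (M + 6) ≤ 2 * dU M (M + 6) + 51 := by
  have hd : dU M (M + 6) = (2 * (M + 1) - op (M + 1) - 1) + (2 * (M + 2) - op (M + 2) - 1) +
      (2 * (M + 3) - op (M + 3) - 1) + (2 * (M + 4) - op (M + 4) - 1) +
      (2 * (M + 5) - op (M + 5) - 1) + (2 * (M + 6) - op (M + 6) - 1) := by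
    unfold dU
    rw [Finset.sum_Ioc_succ_top (by omega), Finset.sum_Ioc_succ_top (by omega),
      Finset.sum_Ioc_succ_top (by omega), Finset.sum_Ioc_succ_top (by omega),
      Finset.sum_Ioc_succ_top (by omega), Finset.sum_Ioc_succ_top (by omega)]
    simp
  rw [hd]
  have hle : ∀ m, op m ≤ m := fun m => by unfold op; exact Nat.div_le_self _ _
  have h2 : ∀ m, 1 ≤ m → op (2 * m) ≤ m := fun m hm => by rw [hOP.2.1 m hm]; exact hle m
  have h4 : ∀ m, 1 ≤ m → op (4 * m) ≤ m := fun m hm => by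
    have : 4 * m = 2 * (2 * m) := by ring
    rw [this, hOP.2.1 (2 * m) (by omega)]; exact h2 m hm
  have l1 := hle (M + 1)
  have l2 := hle (M + 2)
  have l3 := hle (M + 3)
  have l4 := hle (M + 4)
  have l5 := hle (M + 5)
  have l6 := hle (M + 6)
  obtain ⟨q, hq⟩ : ∃ q, M = 4 * q ∨ M = 4 * q + 1 ∨ M = 4 * q + 2 ∨ M = 4 * q + 3 :=
    ⟨M / 4, by omega⟩
  rcases hq with rfl | rfl | rfl | rfl
  · have a2 := h2 (2 * q + 1) (by omega)
    have a4 := h4 (q + 1) (by omega)
    have a6 := h2 (2 * q + 3) (by omega)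
    rw [show 2 * (2 * q + 1) = 4 * q + 2 by ring] at a2
    rw [show 4 * (q + 1) = 4 * q + 4 by ring] at a4
    rw [show 2 * (2 * q + 3) = 4 * q + 6 by ring] at a6
    omega
  · have a1 := h2 (2 * q + 1) (by omega)
    have a3 := h4 (q + 1) (by omega)
    have a5 := h2 (2 * q + 3) (by omega)
    rw [show 2 * (2 * q + 1) = 4 * q + 1 + 1 by ring] at a1
    rw [show 4 * (q + 1) = 4 * q + 1 + 3 by ring] at a3
    rw [show 2 * (2 * q + 3) = 4 * q + 1 + 5 by ring] at a5
    omega
  · have a2 := h4 (q + 1) (by omega)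
    have a4 := h2 (2 * q + 3) (by omega)
    have a6 := h4 (q + 2) (by omega)
    rw [show 4 * (q + 1) = 4 * q + 2 + 2 by ring] at a2
    rw [show 2 * (2 * q + 3) = 4 * q + 2 + 4 by ring] at a4
    rw [show 4 * (q + 2) = 4 * q + 2 + 6 by ring] at a6
    omega
  · have a1 := h4 (q + 1) (by omega)
    have a3 := h2 (2 * q + 3) (by omega)
    have a5 := h4 (q + 2) (by omega)
    rw [show 4 * (q + 1) = 4 * q + 3 + 1 by ring] at a1
    rw [show 2 * (2 * q + 3) = 4 * q + 3 + 3 by ring] at a3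
    rw [show 4 * (q + 2) = 4 * q + 3 + 5 by ring] at a5
    omega

end DUBx

theorem DUB_thm (hOP : OPStmt) (hUU : UUStmt) : DUBStmt := by
  have h1 : ∀ N, 6 ≤ N → 15 * N ≤ 2 * dU (N - 6) N + 51 := by
    intro N hN
    obtain ⟨M, rfl⟩ : ∃ M, N = M + 6 := ⟨N - 6, by omega⟩
    rw [Nat.add_sub_cancel]
    exact DUBx.six hOP M
  refine ⟨h1, ?_, ?_⟩
  · intro t
    induction t with
    | zero => intro N _; simp
    | succ t ih =>
      intro N hN
      have h2 := ih N (by omega)
      have h3 := h1 (N - 6 * t) (by omega)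
      have h4 := hUU.2.2.2.2.2.1 (N - 6 * (t + 1)) (N - 6 * t) N (by omega) (by omega)
      have h5 : N - 6 * t - 6 = N - 6 * (t + 1) := by omega
      rw [h5] at h3
      obtain ⟨R, hR⟩ : ∃ R, N = 6 * t + R := ⟨N - 6 * t, by omega⟩
      have h6 : N - 6 * t = R := by omega
      rw [h6] at h3 h4 h2
      rw [← h4]
      nlinarith
  · intro b N hb
    unfold dU
    calc ∑ m ∈ Ioc (N - b) N, (2 * m - op m - 1) ≤ ∑ m ∈ Ioc (N - b) N, 2 * N := by
          refine Finset.sum_le_sum fun m hm => ?_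
          have := (Finset.mem_Ioc.1 hm).2
          omega
      _ = b * (2 * N) := by
          rw [Finset.sum_const, Nat.card_Ioc, smul_eq_mul]
          congr 1; omega
      _ ≤ 2 * b * N := by rw [← mul_assoc, mul_comm b 2]

end Pool.Agent.H37.UM
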