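import Pool.Agent.H70.UM.Blk

/-!
# Project UM, module TB0: the blocks of three with `4 | N`
-/

set_option autoImplicit false

namespace Pool.Agent.H37.UM

open PowerSeries Finset TBx

theorem TB0_thm (hOP : OPStmt) (hFF : FFStmt) (_hSUM : SUMStmt) (hUU : UUStmt) : TB0Stmt := by
  intro N hN hN4
  refine ⟨hUU.1 _ _, ?_⟩
  intro k hk
  obtain ⟨v, rfl⟩ : ∃ v, N = 4 * v + 4 := ⟨(N - 4) / 4, by omega⟩
  have e0 : 4 * v + 4 - 3 = 4 * v + 1 := by omega
  have e00 : 4 * v + 4 = 4 * v + 1 + 3 := by omega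
  obtain ⟨c, hc, hc1, hcc, hodd, hp1⟩ := M_shape hOP v
  rw [e0, e00, dU_three] at hk
  rw [e0, e00, U_three]
  have e2 : 4 * v + 1 + 1 = 4 * v + 2 := by omega
  have e3 : 4 * v + 1 + 2 = 4 * v + 3 := by omega
  have e4 : 4 * v + 1 + 3 = 4 * v + 4 := by omega
  rw [e2, e3, e4] at hk ⊢
  have o1 : op (4 * v + 2) = 2 * v + 1 := by
    have h1 := hOP.2.1 (2 * v + 1) (by omega)
    rw [hOP.2.2 v, show 2 * (2 * v + 1) = 4 * v + 2 by ring] at h1
    exact h1
  have o2 : op (4 * v + 3) = 4 * v + 3 := by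
    have := hOP.2.2 (2 * v + 1)
    rwa [show 2 * (2 * v + 1) + 1 = 4 * v + 3 by ring] at this
  have f1 : F (4 * v + 2) = iv (2 * v + 1) * (1 + X ^ (4 * v + 2)) := by
    have := F_two_odd hOP v
    rwa [show 2 * (2 * v + 1) = 4 * v + 2 by ring] at this
  have f2 : F (4 * v + 3) = iv (4 * v + 3) := by
    have := F_odd hOP (2 * v + 1)
    rwa [show 2 * (2 * v + 1) + 1 = 4 * v + 3 by ring] at this
  set p := op (4 * v + 4) with hp
  rw [o1, o2] at hk
  have hk' : 2 * k + p ≤ 18 * v + 11 := by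
    have := (hOP.1 (4 * v + 4) (by omega)).2.2.1
    omega
  -- the formula
  have hG : ∀ j, coeff j (iv (2 * v + 1) * F (4 * v + 4)) = H p (4 * v + 4) (2 * v + 1) (j + 1) :=
    coeff_H hFF (by omega) (2 * v + 1)
  have hform : df (F (4 * v + 2) * F (4 * v + 3) * F (4 * v + 4)) k =
      H p (4 * v + 4) (2 * v + 1) (k + 1) +
      H p (4 * v + 4) (2 * v + 1) (k + 1 - (4 * v + 2)) -
      H p (4 * v + 4) (2 * v + 1) (k + 1 - (4 * v + 3)) -
      H p (4 * v + 4) (2 * v + 1) (k + 1 - (8 * v + 5)) := by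
    have h1 : (1 - X) * (F (4 * v + 2) * F (4 * v + 3) * F (4 * v + 4)) =
        iv (2 * v + 1) * F (4 * v + 4) + X ^ (4 * v + 2) * (iv (2 * v + 1) * F (4 * v + 4)) -
        X ^ (4 * v + 3) * (iv (2 * v + 1) * F (4 * v + 4)) -
        X ^ (8 * v + 5) * (iv (2 * v + 1) * F (4 * v + 4)) := by
      have h2 := one_sub_mul_iv (4 * v + 3)
      have h3 : (X : ℤ⟦X⟧) ^ (8 * v + 5) = X ^ (4 * v + 2) * X ^ (4 * v + 3) := by
        rw [← pow_add]; congr 1; ring
      calc (1 - X) * (F (4 * v + 2) * F (4 * v + 3) * F (4 * v + 4))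
          = ((1 - X) * iv (4 * v + 3)) * (1 + X ^ (4 * v + 2)) *
            (iv (2 * v + 1) * F (4 * v + 4)) := by rw [f1, f2]; ring
        _ = _ := by rw [h2, h3]; ring
    unfold df
    rw [h1, map_sub, map_sub, map_add, hG,
      coeff_shift _ _ (H_zero _ _ _) hG, coeff_shift _ _ (H_zero _ _ _) hG,
      coeff_shift _ _ (H_zero _ _ _) hG]
  rw [hform]
  -- properties of the counting function
  have hu : (p : ℤ) * c = v + 1 := by exact_mod_cast hc.symm
  have hs : ∀ n, s p (n + (2 * v + 2)) = s p n + (v + 1) := by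
    intro n
    have := s_add p n c
    rw [hu] at this
    rw [← this]; congr 1
    have : 2 * p * c = 2 * (p * c) := by ring
    rw [this, ← hc]; ring
  have hch : ∀ n, ch p (n + (2 * v + 2)) = ch p n := by
    intro n
    have := ch_add p n c
    rw [← this]; congr 1
    have : 2 * p * c = 2 * (p * c) := by ring
    rw [this, ← hc]; ring
  have hs8 : s p (8 * v + 8) = 4 * (v + 1) := by
    have a1 := hs 0; have a2 := hs (2 * v + 2); have a3 := hs (4 * v + 4)
    have a4 := hs (6 * v + 6)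
    rw [s_zero, zero_add] at a1
    rw [show 2 * v + 2 + (2 * v + 2) = 4 * v + 4 by ring] at a2
    rw [show 4 * v + 4 + (2 * v + 2) = 6 * v + 6 by ring] at a3
    rw [show 6 * v + 6 + (2 * v + 2) = 8 * v + 8 by ring] at a4
    linarith
  have hb := fun n => ch_nonneg p n
  have hb1 := fun n => ch_le p n
  have hsn : ∀ n, 0 ≤ s p n := fun n => by
    have := s_mono p (Nat.zero_le n); rwa [s_zero] at this
  have hHa : ∀ n, n ≤ 2 * v + 1 → H p (4 * v + 4) (2 * v + 1) n = s p n := by
    intro n hn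
    unfold H
    rw [min_eq_left (by omega), Nat.sub_eq_zero_of_le hn]; simp [s_zero]
  have hHb : ∀ n, 2 * v + 1 ≤ n → n ≤ 8 * v + 8 →
      H p (4 * v + 4) (2 * v + 1) n = (v + 1) - ch p n := by
    intro n hn hn2
    have h1 : H p (4 * v + 4) (2 * v + 1) n = s p n - s p (n - (2 * v + 1)) := by
      unfold H
      rw [min_eq_left (by omega), min_eq_left (by omega)]
    rw [h1]
    rcases Nat.eq_or_lt_of_le hn with h2 | h2
    · subst h2
      have a1 := hs 0
      rw [s_zero, zero_add, show 2 * v + 2 = 2 * v + 1 + 1 by ring, s_succ] at a1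
      rw [Nat.sub_self, s_zero]; linarith
    · obtain ⟨m, rfl⟩ : ∃ m, n = m + (2 * v + 2) := ⟨n - (2 * v + 2), by omega⟩
      rw [hs, hch, show m + (2 * v + 2) - (2 * v + 1) = m + 1 by omega, s_succ]; ring
  have hHc : ∀ n, n ≤ 2 * v + 2 → H p (4 * v + 4) (2 * v + 1) (8 * v + 7 + n) =
      (v + 1) - s p n := by
    intro n hn
    rcases Nat.eq_zero_or_pos n with h0 | h0
    · subst h0
      rw [hHb _ (by omega) (by omega), s_zero]
      have a1 : ch p (8 * v + 7) = ch p (2 * v + 1) := by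
        rw [show 8 * v + 7 = (2 * v + 1) + (2 * v + 2) + (2 * v + 2) + (2 * v + 2) by ring,
          hch, hch, hch]
      have a2 : ch p (2 * v + 1) = 0 := by
        have a3 := ch_add p (2 * p - 1) (c - 1)
        have a4 : 2 * p - 1 + 2 * p * (c - 1) = 2 * v + 1 := by
          obtain ⟨d, rfl⟩ : ∃ d, c = d + 1 := ⟨c - 1, by omega⟩
          have : v + 1 = p * d + p := by rw [hc]; ring
          simp only [Nat.add_sub_cancel]
          have h5 : 2 * p * d = 2 * (p * d) := by ring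
          omega
        rw [a4] at a3
        rw [a3]; exact ch_zero (by omega) (by omega)
      rw [a1, a2]
    · have h1 : H p (4 * v + 4) (2 * v + 1) (8 * v + 7 + n) =
          s p (8 * v + 8) - s p (8 * v + 7 + n - (2 * v + 1)) := by
        unfold H
        rw [min_eq_right (by omega), min_eq_left (by omega)]
        congr 2; ring
      rw [h1, hs8, show 8 * v + 7 + n - (2 * v + 1) =
        n + (2 * v + 2) + (2 * v + 2) + (2 * v + 2) by omega, hs, hs, hs]
      ring
  -- differences of H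
  have hdiff : ∀ j, j ≤ 4 * v + 6 → -1 ≤ H p (4 * v + 4) (2 * v + 1) (j + 1) -
      H p (4 * v + 4) (2 * v + 1) j := by
    intro j hj
    by_cases h1 : j + 1 ≤ 2 * v + 1
    · rw [hHa _ h1, hHa _ (by omega), s_succ]
      have := hb j; linarith
    · rw [hHb _ (by omega) (by omega), hHb _ (by omega) (by omega)]
      have := hb j; have := hb1 (j + 1); linarith
  have hpos : ∀ n, n ≤ 8 * v + 8 → 0 ≤ H p (4 * v + 4) (2 * v + 1) n := by
    intro n hn
    by_cases h1 : n ≤ 2 * v + 1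
    · rw [hHa _ h1]; exact hsn n
    · rw [hHb _ (by omega) hn]
      have := hb1 n
      have : (0 : ℤ) ≤ v := by positivity
      linarith
  have hv : 2 ≤ v := by omega
  by_cases hA : k ≤ 4 * v + 2
  · have h1 := hpos (k + 1) (by omega)
    have h2 := hpos (k + 1 - (4 * v + 2)) (by omega)
    rw [show k + 1 - (4 * v + 3) = 0 by omega, show k + 1 - (8 * v + 5) = 0 by omega, H_zero]
    linarith
  by_cases hB : k ≤ 8 * v + 4
  · rw [show k + 1 - (8 * v + 5) = 0 by omega, H_zero]
    obtain ⟨j, rfl⟩ : ∃ j, k = j + (4 * v + 2) := ⟨k - (4 * v + 2), by omega⟩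
    rw [show j + (4 * v + 2) + 1 - (4 * v + 2) = j + 1 by omega,
      show j + (4 * v + 2) + 1 - (4 * v + 3) = j by omega]
    have h1 := hdiff j (by omega)
    have h2 := hHb (j + (4 * v + 2) + 1) (by omega) (by omega)
    have h3 := hb1 (j + (4 * v + 2) + 1)
    have : (2 : ℤ) ≤ v := by exact_mod_cast hv
    rw [h2]; linarith
  obtain ⟨a, rfl⟩ : ∃ a, k = 8 * v + 5 + a := ⟨k - (8 * v + 5), by omega⟩
  have ha : 2 * a + p + 1 ≤ 2 * (v + 1) := by omega
  rw [show 8 * v + 5 + a + 1 - (4 * v + 2) = (4 * v + 3 + a) + 1 by omega,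
    show 8 * v + 5 + a + 1 - (4 * v + 3) = 4 * v + 3 + a by omega,
    show 8 * v + 5 + a + 1 - (8 * v + 5) = a + 1 by omega]
  have h1 := hHb (4 * v + 3 + a + 1) (by omega) (by omega)
  have h2 := hHb (4 * v + 3 + a) (by omega) (by omega)
  have h3 := hHa (a + 1) (by omega)
  have h4 : ch p (4 * v + 3 + a + 1) = ch p a := by
    rw [show 4 * v + 3 + a + 1 = a + (2 * v + 2) + (2 * v + 2) by ring, hch, hch]
  rw [h1, h2, h3, h4, s_succ]
  have hv' : (2 : ℤ) ≤ v := by exact_mod_cast hv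
  rcases Nat.eq_zero_or_pos a with h0 | h0
  · subst h0
    have h5 := hHb (8 * v + 5 + 0 + 1) (by omega) (by omega)
    rw [h5, s_zero]
    have h6 : ch p (4 * v + 3 + 0) = ch p (2 * v + 1) := by
      rw [show 4 * v + 3 + 0 = 2 * v + 1 + (2 * v + 2) by ring, hch]
    have := hb1 (8 * v + 5 + 0 + 1)
    have := hb1 0
    have := hb (4 * v + 3 + 0)
    linarith
  · obtain ⟨b, rfl⟩ : ∃ b, a = b + 1 := ⟨a - 1, by omega⟩
    have h5 := hHc b (by omega)
    rw [show 8 * v + 5 + (b + 1) + 1 = 8 * v + 7 + b by ring, h5]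
    have h6 : ch p (4 * v + 3 + (b + 1)) = ch p b := by
      rw [show 4 * v + 3 + (b + 1) = b + (2 * v + 2) + (2 * v + 2) by ring, hch, hch]
    rw [h6, s_succ]
    -- goal: v + 1 - s b + (v+1 - ch (b+1)) - (v+1 - ch b) - (s b + ch b + ch (b+1)) ≥ 0
    rcases hcc with h7 | ⟨d, h7⟩
    · -- M = 4 p
      have h8 : v + 1 = p := by rw [hc, h7]; ring
      have h9 : s p b = b := s_small (by omega)
      have h10 : ch p b = 1 := ch_one (by omega)
      have h11 : ch p (b + 1) = 1 := ch_one (by omega)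
      rw [h9, h10, h11]
      omega
    · have h8 : s p (v + 1) * 2 = v + 1 := by
        have a1 := s_add p 0 d
        rw [s_zero, zero_add, zero_add] at a1
        have a2 : 2 * p * d = v + 1 := by rw [hc, h7]; ring
        rw [a2] at a1
        rw [a1, ← hu, h7]; push_cast; ring
      have h9 : s p (b + 2) ≤ s p (v + 1) := s_mono p (by omega)
      rw [s_succ, s_succ] at h9
      have := hb b
      linarith

end Pool.Agent.H37.UM
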