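import Pool.Agent.H70.UM.Blk

/-!
# Project UM, module TB2: the blocks of three with `N = 2` modulo `4`
-/

set_option autoImplicit false

namespace Pool.Agent.H37.UM

open PowerSeries Finset TBx

theorem TB2_thm (hOP : OPStmt) (hFF : FFStmt) (_hSUM : SUMStmt) (hUU : UUStmt) : TB2Stmt := by
  intro N hN hN4
  refine ⟨hUU.1 _ _, ?_⟩
  intro k hk
  obtain ⟨v, rfl⟩ : ∃ v, N = 4 * v + 6 := ⟨(N - 6) / 4, by omega⟩
  have hv : 1 ≤ v := by omega
  have e0 : 4 * v + 6 - 3 = 4 * v + 3 := by omega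
  have e00 : 4 * v + 6 = 4 * v + 3 + 3 := by omega
  obtain ⟨c, hc, hc1, hcc, hodd, hp1⟩ := M_shape hOP v
  rw [e0, e00, dU_three] at hk
  rw [e0, e00, U_three]
  have e2 : 4 * v + 3 + 1 = 4 * v + 4 := by omega
  have e3 : 4 * v + 3 + 2 = 4 * v + 5 := by omega
  have e4 : 4 * v + 3 + 3 = 4 * v + 6 := by omega
  rw [e2, e3, e4] at hk ⊢
  have o1 : op (4 * v + 6) = 2 * v + 3 := by
    have h1 := hOP.2.1 (2 * v + 3) (by omega)
    have h2 := hOP.2.2 (v + 1)
    rw [show 2 * (v + 1) + 1 = 2 * v + 3 by ring] at h2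
    rw [h2, show 2 * (2 * v + 3) = 4 * v + 6 by ring] at h1
    exact h1
  have o2 : op (4 * v + 5) = 4 * v + 5 := by
    have := hOP.2.2 (2 * v + 2)
    rwa [show 2 * (2 * v + 2) + 1 = 4 * v + 5 by ring] at this
  have f1 : F (4 * v + 6) = iv (2 * v + 3) * (1 + X ^ (4 * v + 6)) := by
    have := F_two_odd hOP (v + 1)
    rwa [show 2 * (2 * (v + 1) + 1) = 4 * v + 6 by ring,
      show 2 * (v + 1) + 1 = 2 * v + 3 by ring] at this
  have f2 : F (4 * v + 5) = iv (4 * v + 5) := by
    have := F_odd hOP (2 * v + 2)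
    rwa [show 2 * (2 * v + 2) + 1 = 4 * v + 5 by ring] at this
  set p := op (4 * v + 4) with hp
  rw [o1, o2] at hk
  have hk' : 2 * k + p ≤ 18 * v + 19 := by
    have := (hOP.1 (4 * v + 4) (by omega)).2.2.1
    omega
  -- the formula
  have hG : ∀ j, coeff j (iv (2 * v + 3) * F (4 * v + 4)) = H p (4 * v + 4) (2 * v + 3) (j + 1) :=
    coeff_H hFF (by omega) (2 * v + 3)
  have hform : df (F (4 * v + 4) * F (4 * v + 5) * F (4 * v + 6)) k =
      H p (4 * v + 4) (2 * v + 3) (k + 1) -
      H p (4 * v + 4) (2 * v + 3) (k + 1 - (4 * v + 5)) +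
      H p (4 * v + 4) (2 * v + 3) (k + 1 - (4 * v + 6)) -
      H p (4 * v + 4) (2 * v + 3) (k + 1 - (8 * v + 11)) := by
    have h1 : (1 - X) * (F (4 * v + 4) * F (4 * v + 5) * F (4 * v + 6)) =
        iv (2 * v + 3) * F (4 * v + 4) - X ^ (4 * v + 5) * (iv (2 * v + 3) * F (4 * v + 4)) +
        X ^ (4 * v + 6) * (iv (2 * v + 3) * F (4 * v + 4)) -
        X ^ (8 * v + 11) * (iv (2 * v + 3) * F (4 * v + 4)) := by
      have h2 := one_sub_mul_iv (4 * v + 5)
      have h3 : (X : ℤ⟦X⟧) ^ (8 * v + 11) = X ^ (4 * v + 5) * X ^ (4 * v + 6) := by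
        rw [← pow_add]; congr 1; ring
      calc (1 - X) * (F (4 * v + 4) * F (4 * v + 5) * F (4 * v + 6))
          = ((1 - X) * iv (4 * v + 5)) * (1 + X ^ (4 * v + 6)) *
            (iv (2 * v + 3) * F (4 * v + 4)) := by rw [f1, f2]; ring
        _ = _ := by rw [h2, h3]; ring
    unfold df
    rw [h1, map_sub, map_add, map_sub, hG,
      coeff_shift _ _ (H_zero _ _ _) hG, coeff_shift _ _ (H_zero _ _ _) hG,
      coeff_shift _ _ (H_zero _ _ _) hG]
  rw [hform]
  -- properties of the counting function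
  have hu : (p : ℤ) * c = v + 1 := by exact_mod_cast hc.symm
  have hs : ∀ n, s p (n + (2 * v + 2)) = s p n + (v + 1) := by
    intro n
    have := s_add p n c
    rw [hu] at this
    rw [← this]; congr 1
    have : 2 * p * c = 2 * (p * c) := by ring
    rw [this, ← hc]; ring
  have hch : ∀ n, ch p (n + (2 * v + 2)) = ch p n := by
    intro n
    have := ch_add p n c
    rw [← this]; congr 1
    have : 2 * p * c = 2 * (p * c) := by ring
    rw [this, ← hc]; ring
  have hs8 : s p (8 * v + 8) = 4 * (v + 1) := by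
    have a1 := hs 0; have a2 := hs (2 * v + 2); have a3 := hs (4 * v + 4)
    have a4 := hs (6 * v + 6)
    rw [s_zero, zero_add] at a1
    rw [show 2 * v + 2 + (2 * v + 2) = 4 * v + 4 by ring] at a2
    rw [show 4 * v + 4 + (2 * v + 2) = 6 * v + 6 by ring] at a3
    rw [show 6 * v + 6 + (2 * v + 2) = 8 * v + 8 by ring] at a4
    linarith
  have hb := fun n => ch_nonneg p n
  have hb1 := fun n => ch_le p n
  have hsn : ∀ n, 0 ≤ s p n := fun n => by
    have := s_mono p (Nat.zero_le n); rwa [s_zero] at this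
  have hHa : ∀ n, n ≤ 2 * v + 3 → H p (4 * v + 4) (2 * v + 3) n = s p n := by
    intro n hn
    unfold H
    rw [min_eq_left (by omega), Nat.sub_eq_zero_of_le hn]; simp [s_zero]
  have hHb : ∀ m, 2 * v + 3 + m ≤ 8 * v + 8 →
      H p (4 * v + 4) (2 * v + 3) (2 * v + 3 + m) = (v + 1) + ch p m := by
    intro m hn2
    have h1 : H p (4 * v + 4) (2 * v + 3) (2 * v + 3 + m) = s p (2 * v + 3 + m) - s p m := by
      unfold H
      rw [min_eq_left (by omega), min_eq_left (by omega), Nat.add_sub_cancel_left]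
    rw [h1, show 2 * v + 3 + m = m + 1 + (2 * v + 2) by ring, hs, s_succ]; ring
  have hHc : ∀ n, n ≤ 2 * v + 2 → H p (4 * v + 4) (2 * v + 3) (8 * v + 9 + n) =
      (v + 1) - s p n := by
    intro n hn
    have h1 : H p (4 * v + 4) (2 * v + 3) (8 * v + 9 + n) =
        s p (8 * v + 8) - s p (8 * v + 9 + n - (2 * v + 3)) := by
      unfold H
      rw [min_eq_right (by omega), min_eq_left (by omega)]
      congr 2; ring
    rw [h1, hs8, show 8 * v + 9 + n - (2 * v + 3) =
      n + (2 * v + 2) + (2 * v + 2) + (2 * v + 2) by omega, hs, hs, hs]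
    ring
  -- differences of H
  have hdiff : ∀ j, j ≤ 4 * v + 6 → H p (4 * v + 4) (2 * v + 3) (j + 1) -
      H p (4 * v + 4) (2 * v + 3) j ≤ 1 := by
    intro j hj
    by_cases h1 : j + 1 ≤ 2 * v + 3
    · rw [hHa _ h1, hHa _ (by omega), s_succ]
      have := hb1 j; linarith
    · obtain ⟨m, rfl⟩ : ∃ m, j = 2 * v + 3 + m := ⟨j - (2 * v + 3), by omega⟩
      rw [show 2 * v + 3 + m + 1 = 2 * v + 3 + (m + 1) by ring, hHb _ (by omega),
        hHb _ (by omega)]
      have := hb m; have := hb1 (m + 1); linarith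
  have hpos : ∀ n, n ≤ 8 * v + 8 → 0 ≤ H p (4 * v + 4) (2 * v + 3) n := by
    intro n hn
    by_cases h1 : n ≤ 2 * v + 3
    · rw [hHa _ h1]; exact hsn n
    · obtain ⟨m, rfl⟩ : ∃ m, n = 2 * v + 3 + m := ⟨n - (2 * v + 3), by omega⟩
      rw [hHb _ hn]
      have := hb m
      have : (0 : ℤ) ≤ v := by positivity
      linarith
  have hv' : (1 : ℤ) ≤ v := by exact_mod_cast hv
  by_cases hA : k ≤ 4 * v + 4
  · have h1 := hpos (k + 1) (by omega)
    rw [show k + 1 - (4 * v + 5) = 0 by omega, show k + 1 - (4 * v + 6) = 0 by omega,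
      show k + 1 - (8 * v + 11) = 0 by omega, H_zero]
    linarith
  by_cases hB : k ≤ 8 * v + 10
  · rw [show k + 1 - (8 * v + 11) = 0 by omega, H_zero]
    obtain ⟨j, rfl⟩ : ∃ j, k = j + (4 * v + 5) := ⟨k - (4 * v + 5), by omega⟩
    rw [show j + (4 * v + 5) + 1 - (4 * v + 5) = j + 1 by omega,
      show j + (4 * v + 5) + 1 - (4 * v + 6) = j by omega]
    have h1 := hdiff j (by omega)
    have h2 : 1 ≤ H p (4 * v + 4) (2 * v + 3) (j + (4 * v + 5) + 1) := by
      by_cases h3 : j + (4 * v + 5) + 1 ≤ 8 * v + 8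
      · obtain ⟨m, hm⟩ : ∃ m, j + (4 * v + 5) + 1 = 2 * v + 3 + m :=
          ⟨j + (4 * v + 5) + 1 - (2 * v + 3), by omega⟩
        rw [hm, hHb _ (by omega)]
        have := hb m
        linarith
      · obtain ⟨m, hm⟩ : ∃ m, j + (4 * v + 5) + 1 = 8 * v + 9 + m :=
          ⟨j + (4 * v + 5) + 1 - (8 * v + 9), by omega⟩
        rw [hm, hHc _ (by omega)]
        have h4 : s p m ≤ s p 2 := s_mono p (by omega)
        have h5 : s p 2 ≤ v := by
          have h6 : s p 2 = ch p 0 + ch p 1 := by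
            rw [show 2 = 0 + 1 + 1 from rfl, s_succ, s_succ, s_zero]; ring
          have := hb1 0
          have := hb1 1
          by_cases h7 : v = 1
          · have h8 : p = 1 := by
              rw [h7] at hc
              have h9 : p ∣ 2 := ⟨c, by omega⟩
              rcases (Nat.dvd_prime Nat.prime_two).1 h9 with h10 | h10
              · exact h10
              · rw [h10] at hodd
                exact absurd hodd (by decide)
            have h9 : ch p 1 = 0 := ch_zero (by omega) (by omega)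
            rw [h6, h9, h7]; push_cast; linarith
          · have : (2 : ℤ) ≤ v := by
              have : 2 ≤ v := by omega
              exact_mod_cast this
            linarith
        linarith
    linarith
  obtain ⟨a, rfl⟩ : ∃ a, k = 8 * v + 11 + a := ⟨k - (8 * v + 11), by omega⟩
  have ha : 2 * a + p + 5 ≤ 2 * (v + 1) := by omega
  rw [show 8 * v + 11 + a + 1 - (4 * v + 5) = 2 * v + 3 + (2 * v + 4 + a) by omega,
    show 8 * v + 11 + a + 1 - (4 * v + 6) = 2 * v + 3 + (2 * v + 3 + a) by omega,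
    show 8 * v + 11 + a + 1 - (8 * v + 11) = a + 1 by omega,
    show 8 * v + 11 + a + 1 = 8 * v + 9 + (a + 3) by omega,
    hHb (2 * v + 4 + a) (by omega), hHb (2 * v + 3 + a) (by omega), hHa (a + 1) (by omega),
    hHc (a + 3) (by omega), show 2 * v + 4 + a = a + 2 + (2 * v + 2) by ring,
    show 2 * v + 3 + a = a + 1 + (2 * v + 2) by ring, hch, hch]
  have h1 := s_succ p (a + 2)
  have h2 := s_succ p (a + 1)
  rw [show a + 2 + 1 = a + 3 by ring] at h1
  rw [show a + 1 + 1 = a + 2 by ring] at h2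
  rcases hcc with h7 | ⟨d, h7⟩
  · have h8 : v + 1 = p := by rw [hc, h7]; ring
    have h9 : s p (a + 3) = (a + 3 : ℕ) := s_small (by omega)
    have h10 : s p (a + 1) = (a + 1 : ℕ) := s_small (by omega)
    have h11 := hb1 (a + 2)
    have h12 := hb (a + 1)
    rw [h9, h10]
    have : (v : ℤ) + 1 = p := by exact_mod_cast h8
    have : 2 * (a : ℤ) + p + 5 ≤ 2 * (v + 1) := by exact_mod_cast ha
    push_cast
    have h13 : ch p (a + 1) = 1 := ch_one (by omega)
    linarith
  · have h8 : s p (v + 1) * 2 = v + 1 := by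
      have a1 := s_add p 0 d
      rw [s_zero, zero_add, zero_add] at a1
      have a2 : 2 * p * d = v + 1 := by rw [hc, h7]; ring
      rw [a2] at a1
      rw [a1, ← hu, h7]; push_cast; ring
    have h9 : s p (a + 3) ≤ s p (v + 1) := s_mono p (by omega)
    have := hb (a + 1)
    linarith

end Pool.Agent.H37.UM
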