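import Pool.Agent.H70.UM.Blk

/-!
# Project UM, module TB3: the blocks of three with `N = 4 q + 3`
-/

set_option autoImplicit false

namespace Pool.Agent.H37.UM

open PowerSeries Finset TBx

theorem TB3_thm (hOP : OPStmt) (_hFF : FFStmt) (hSUM : SUMStmt) (_hUU : UUStmt) : TB3Stmt := by
  intro N hN hN4
  obtain ⟨q, rfl⟩ : ∃ q, N = 4 * q + 3 := ⟨N / 4, by omega⟩
  have e0 : 4 * q + 3 - 3 = 4 * q := by omega
  rw [e0, U_three, dU_three]
  have o1 : op (4 * q + 1) = 4 * q + 1 := by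
    have := hOP.2.2 (2 * q)
    rwa [show 2 * (2 * q) + 1 = 4 * q + 1 by ring] at this
  have o2 : op (4 * q + 2) = 2 * q + 1 := by
    have h1 := hOP.2.1 (2 * q + 1) (by omega)
    rw [hOP.2.2 q, show 2 * (2 * q + 1) = 4 * q + 2 by ring] at h1
    exact h1
  have o3 : op (4 * q + 3) = 4 * q + 3 := by
    have := hOP.2.2 (2 * q + 1)
    rwa [show 2 * (2 * q + 1) + 1 = 4 * q + 3 by ring] at this
  have f1 : F (4 * q + 1) = iv (4 * q + 1) := by
    have := F_odd hOP (2 * q)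
    rwa [show 2 * (2 * q) + 1 = 4 * q + 1 by ring] at this
  have f2 : F (4 * q + 2) = iv (2 * q + 1) * (1 + X ^ (4 * q + 2)) := by
    have := F_two_odd hOP q
    rwa [show 2 * (2 * q + 1) = 4 * q + 2 by ring] at this
  have f3 : F (4 * q + 3) = iv (4 * q + 3) := by
    have := F_odd hOP (2 * q + 1)
    rwa [show 2 * (2 * q + 1) + 1 = 4 * q + 3 by ring] at this
  have k1 : (1 + X ^ (4 * q + 2)) * iv (4 * q + 3) = iv (8 * q + 5) + X ^ (4 * q + 2) * iv 1 := by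
    have a1 := iv_add (4 * q + 3) (4 * q + 2)
    have a2 := iv_add 1 (4 * q + 2)
    rw [show 4 * q + 3 + (4 * q + 2) = 8 * q + 5 by ring] at a1
    rw [show 1 + (4 * q + 2) = 4 * q + 3 by ring] at a2
    have a3 : X ^ (4 * q + 2) * iv (4 * q + 3) =
        X ^ (4 * q + 2) * iv 1 + X ^ (4 * q + 3) * iv (4 * q + 2) := by
      rw [a2, mul_add, ← mul_assoc, ← pow_add]
    rw [add_mul, one_mul, a3, a1]; ring
  have s1 : SU (4 * q) (iv (4 * q + 1)) := hSUM.2.2.1 _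
  have s2 : SU (2 * q) (iv (2 * q + 1)) := hSUM.2.2.1 _
  have s3 : SU (8 * q + 4) (iv (8 * q + 5)) := hSUM.2.2.1 _
  have s4 : SU (8 * q + 4) (X ^ (4 * q + 2) * iv 1) := by
    have := hSUM.2.2.2.1 0 (4 * q + 2) (iv 1) (hSUM.2.2.1 0)
    rwa [show 0 + 2 * (4 * q + 2) = 8 * q + 4 by ring] at this
  have s5 := hSUM.2.2.2.2.1 _ _ _ s3 s4
  rw [← k1] at s5
  have s6 := hSUM.1 _ _ _ _ (hSUM.1 _ _ _ _ s1 s2) s5
  rw [o1, o2, o3, f1, f2, f3]
  have e1 : 2 * (4 * q + 1) - (4 * q + 1) - 1 + (2 * (4 * q + 2) - (2 * q + 1) - 1) +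
      (2 * (4 * q + 3) - (4 * q + 3) - 1) = 4 * q + 2 * q + (8 * q + 4) := by omega
  have e2 : iv (4 * q + 1) * (iv (2 * q + 1) * (1 + X ^ (4 * q + 2))) * iv (4 * q + 3) =
      iv (4 * q + 1) * iv (2 * q + 1) * ((1 + X ^ (4 * q + 2)) * iv (4 * q + 3)) := by ring
  rw [e1, e2]
  exact s6

end Pool.Agent.H37.UM
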